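import Pool.Agent.Run7.h849.SC.Shd

/-!
# The number of links obtained from the shadow of a diagram of even chains

The sliced oriented diagrams, `OIsotopic` and the HOMFLYPT polynomial (`Rlm`, `IsHomfly`) are those
of `Pool.Agent.Helper454.Wh.Defs`. The diagrams `expand w` of chains are defined in
`Pool.Agent.Run7.h849.SC.Dfn`; here all the numbers `n_j` of the bands are positive, so `expand w`
is a positive diagram, which stands for its shadow.
-/

set_option autoImplicit false

namespace Pool.Agent.Results.MP_ae2e71_gt.EvenChainShadows

open Pool.Agent.Helper454.Wh (OPiece OWord OClosed OIsotopic Rlm IsHomfly)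
open Pool.Agent.Helper454.Wh.OPiece (pos neg birth death)
open Run7.h849.SC

/-- the crossing `p` with the other strand above; a maximum or a minimum does not change -/
def switch : OPiece → OPiece
  | pos i => neg i
  | neg i => pos i
  | birth i b => birth i b
  | death i => death i

/-- `E` is a resolution of the shadow of `D`: it differs from `D` in the choice of the upper strand
at some of the crossings. -/
def Resolution (D E : OWord) : Prop := List.Forall₂ (fun p q => q = p ∨ q = switch p) D E

/-- the number of the crossings of a diagram -/
def crossings (D : OWord) : ℕ := D.countP fun p =>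
  match p with
  | pos _ => true
  | neg _ => true
  | _ => false

/-- Let `D = expand w` be a diagram of even chains with `n` crossings such that every band has at
least two crossings. Then the shadow of `D` resolves into at least `n` links which are pairwise not
isotopic; they have pairwise different HOMFLYPT polynomials. -/
theorem result :
    (∃ P : OWord → Rlm, IsHomfly P) ∧
    ∀ w : List Bz, Chained w → (∀ n ∈ bands w, 2 ≤ n) →
      OClosed (expand w) ∧ crossings (expand w) = ((bands w).map Int.natAbs).sum ∧
      ∃ F : Fin (crossings (expand w)) → OWord,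
        (∀ k, Resolution (expand w) (F k) ∧ OClosed (F k)) ∧
        ∀ j k, j ≠ k → ¬ OIsotopic (F j) (F k) ∧
          ∀ P : OWord → Rlm, IsHomfly P → P (F j) ≠ P (F k) := by
  refine ⟨Pool.Agent.Helper454.Wh.Homf.exists_homfly, fun w hw h2 =>
    ⟨closed_expand hw, crs_expand w, ?_⟩⟩
  obtain ⟨F, h1, h3⟩ := main_shadow' hw h2
  have hsw : ∀ p, switch p = sw p := by
    intro p
    cases p <;> rfl
  refine ⟨F, fun k => ⟨?_, (h1 k).2⟩, fun j k hjk => ⟨fun hiso => ?_, h3 j k hjk⟩⟩
  · refine (h1 k).1.imp fun p q h => ?_
    rwa [hsw]
  · obtain ⟨P, hP⟩ := Pool.Agent.Helper454.Wh.Homf.exists_homfly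
    exact h3 j k hjk P hP (hP.1.isotopy _ _ hiso)

end Pool.Agent.Results.MP_ae2e71_gt.EvenChainShadows
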